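import Pool.Agent.Helper32.NO.Defs

/-!
# P0: the weighted trace functions
-/

set_option autoImplicit false
open scoped BigOperators MonoidAlgebra
open Classical

namespace Pool.Agent.Helper12.NO

open Pool.Agent.Helper36.NB Pool.Agent.Helper44.S3 Pool.Agent.Helper32.ND
open Pool.Agent.Helper32.NO

variable {G : Type} [Group G] [Fintype G]

theorem wc_conj {w : G → ℕ} (hw : ClassFun w) (g h : G) : wc w (g * h * g⁻¹) = wc w h := by
  unfold wc
  refine Fintype.sum_equiv (MulAut.conj g⁻¹).toEquiv _ _ ?_
  intro v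
  have e1 : (MulAut.conj g⁻¹).toEquiv v = g⁻¹ * v * g := by
    change MulAut.conj g⁻¹ v = _
    rw [MulAut.conj_apply, inv_inv]
  rw [e1]
  have e2 : w (g⁻¹ * v * g) = w v := by
    have := hw g⁻¹ v
    rwa [inv_inv] at this
  rw [e2]
  refine if_congr ?_ rfl rfl
  constructor
  · intro h1
    calc g⁻¹ * v * g * h = g⁻¹ * (v * (g * h * g⁻¹)) * g := by group
      _ = g⁻¹ * ((g * h * g⁻¹) * v) * g := by rw [h1]
      _ = h * (g⁻¹ * v * g) := by group
  · intro h1
    calc v * (g * h * g⁻¹) = g * (g⁻¹ * v * g * h) * g⁻¹ := by group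
      _ = g * (h * (g⁻¹ * v * g)) * g⁻¹ := by rw [h1]
      _ = g * h * g⁻¹ * v := by group

theorem wc_mul_comm {w : G → ℕ} (hw : ClassFun w) (a b : G) : wc w (a * b) = wc w (b * a) := by
  rw [← wc_conj hw b (a * b)]
  congr 1
  group

theorem wsum_single (O : ValuationSubring ℂ) (w : G → ℕ) (g : G) (r : O) :
    wsum O w (MonoidAlgebra.single g r) = (r : ℂ) * (wc w g : ℂ) := by
  unfold wsum
  rw [Finset.sum_eq_single g]
  · rw [MonoidAlgebra.coeff_single, Finsupp.single_eq_same]
  · intro h _ hh
    rw [MonoidAlgebra.coeff_single, Finsupp.single_eq_of_ne hh]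
    simp
  · intro h
    exact absurd (Finset.mem_univ g) h

theorem wsum_add (O : ValuationSubring ℂ) (w : G → ℕ) (x y : MonoidAlgebra O G) :
    wsum O w (x + y) = wsum O w x + wsum O w y := by
  unfold wsum
  rw [← Finset.sum_add_distrib]
  apply Finset.sum_congr rfl
  intro h _
  rw [MonoidAlgebra.coeff_add, Finsupp.add_apply]
  push_cast
  ring

theorem wsum_smul (O : ValuationSubring ℂ) (w : G → ℕ) (c : O) (x : MonoidAlgebra O G) :
    wsum O w (c • x) = (c : ℂ) * wsum O w x := by
  unfold wsum
  rw [Finset.mul_sum]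
  apply Finset.sum_congr rfl
  intro h _
  rw [MonoidAlgebra.coeff_smul, Finsupp.smul_apply, smul_eq_mul]
  push_cast
  ring

theorem wsum_zero (O : ValuationSubring ℂ) (w : G → ℕ) :
    wsum O w (0 : MonoidAlgebra O G) = 0 := by
  unfold wsum
  simp

theorem wsum_mul_comm (O : ValuationSubring ℂ) {w : G → ℕ} (hw : ClassFun w)
    (a b : MonoidAlgebra O G) : wsum O w (a * b) = wsum O w (b * a) := by
  induction a using MonoidAlgebra.induction_linear with
  | zero => simp
  | add x y hx hy => rw [add_mul, mul_add, wsum_add, wsum_add, hx, hy]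
  | single g r =>
    induction b using MonoidAlgebra.induction_linear with
    | zero => simp
    | add x y hx hy => rw [mul_add, add_mul, wsum_add, wsum_add, hx, hy]
    | single h s =>
      rw [MonoidAlgebra.single_mul_single, MonoidAlgebra.single_mul_single, wsum_single,
        wsum_single, mul_comm r s, wc_mul_comm hw]

/-- the weighted sum as a trace function -/
noncomputable def wT (O : ValuationSubring ℂ) (w : G → ℕ) (hw : ClassFun w) : TraceFun O G where
  f :=
    { toFun := fun x => wsum O w x
      map_add' := wsum_add O w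
      map_smul' := fun c x => by
        rw [wsum_smul]
        rfl }
  comm := wsum_mul_comm O hw

/-- P0 -/
theorem exists_wT (O : ValuationSubring ℂ) (w : G → ℕ) (hw : ClassFun w) :
    ∃ T : TraceFun O G, ∀ x, T.f x = wsum O w x := ⟨wT O w hw, fun _ => rfl⟩

end Pool.Agent.Helper12.NO
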